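import Pool.Agent.K9h10.RP.Cnt
import Mathlib.NumberTheory.Chebyshev

/-!
# Bounds of Chebyshev, sums over the scales
-/

set_option autoImplicit false

namespace Pool.Agent.K9h10.RP

open Finset Filter Topology

lemma th_eq (H : ℕ) : th H = Chebyshev.theta H := by
  unfold th PH Chebyshev.theta
  rw [Nat.floor_natCast]
  rfl

lemma log_small (δ : ℝ) (hδ : 0 < δ) : ∀ᶠ H : ℕ in atTop,
    Real.log H ≤ 2 * δ * Real.sqrt H := by
  have h1 : ∀ᶠ t : ℝ in atTop, ‖Real.log t‖ ≤ δ * ‖t‖ := Real.isLittleO_log_id_atTop.def hδ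
  have h2 : Tendsto (fun H : ℕ => Real.sqrt (H : ℝ)) atTop atTop :=
    Real.tendsto_sqrt_atTop.comp tendsto_natCast_atTop_atTop
  filter_upwards [h2.eventually h1, eventually_ge_atTop 1] with H hH hH1
  rw [Real.norm_of_nonneg (Real.sqrt_nonneg _), Real.log_sqrt (Nat.cast_nonneg _)] at hH
  have h3 := Real.le_norm_self (Real.log (H : ℝ) / 2)
  linarith

lemma sqrt_small (δ : ℝ) (hδ : 0 < δ) : ∀ᶠ H : ℕ in atTop, Real.sqrt H ≤ δ * H := by
  have h2 : Tendsto (fun H : ℕ => Real.sqrt (H : ℝ)) atTop atTop :=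
    Real.tendsto_sqrt_atTop.comp tendsto_natCast_atTop_atTop
  filter_upwards [h2.eventually (eventually_ge_atTop (1 / δ))] with H hH
  have h3 : Real.sqrt H * Real.sqrt H = H := Real.mul_self_sqrt (Nat.cast_nonneg _)
  rw [div_le_iff₀ hδ] at hH
  nlinarith [Real.sqrt_nonneg (H : ℝ)]

lemma log_succ_small (δ : ℝ) (hδ : 0 < δ) : ∀ᶠ H : ℕ in atTop,
    Real.log ((H : ℝ) + 1) ≤ δ * H := by
  have h1 : ∀ᶠ t : ℝ in atTop, ‖Real.log t‖ ≤ (δ / 2) * ‖t‖ :=
    Real.isLittleO_log_id_atTop.def (by positivity)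
  have h2 : Tendsto (fun H : ℕ => (H : ℝ) + 1) atTop atTop :=
    tendsto_atTop_add_const_right _ _ tendsto_natCast_atTop_atTop
  filter_upwards [h2.eventually h1, eventually_ge_atTop 1] with H hH hH1
  have h3 := Real.le_norm_self (Real.log ((H : ℝ) + 1))
  rw [Real.norm_of_nonneg (by positivity : (0 : ℝ) ≤ (H : ℝ) + 1)] at hH
  have h4 : (1 : ℝ) ≤ H := by exact_mod_cast hH1
  nlinarith

/-- the sum of the logarithms of the primes -/
lemma th_large : ∀ᶠ H : ℕ in atTop, (H : ℝ) / 2 ≤ th H := by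
  filter_upwards [log_succ_small (1 / 100) (by norm_num), log_small (1 / 100) (by norm_num)]
    with H h1 h2
  rw [th_eq]
  have h3 := Chebyshev.theta_ge H
  have h4 := Real.log_two_gt_d9
  have h5 : (0 : ℝ) ≤ H := Nat.cast_nonneg _
  have h6 : Real.sqrt H * Real.sqrt H = H := Real.mul_self_sqrt h5
  have h7 : 2 * Real.sqrt H * Real.log H ≤ 2 * Real.sqrt H * (2 * (1 / 100) * Real.sqrt H) :=
    mul_le_mul_of_nonneg_left h2 (by positivity)
  nlinarith

lemma th_upper (H : ℕ) : th H ≤ 7 / 5 * H := by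
  rw [th_eq]
  refine (Chebyshev.theta_le_log4_mul_x (Nat.cast_nonneg _)).trans ?_
  apply mul_le_mul_of_nonneg_right _ (Nat.cast_nonneg _)
  have h1 : Real.log 4 = 2 * Real.log 2 := by
    rw [show (4 : ℝ) = 2 ^ 2 by norm_num, Real.log_pow]
    norm_num
  have := Real.log_two_lt_d9
  rw [h1]
  linarith

/-- the number of the primes -/
lemma pi_large : ∀ᶠ H : ℕ in atTop, (H : ℝ) ≤ 2 * Real.log H * H.primeCounting := by
  filter_upwards [log_succ_small (1 / 100) (by norm_num), eventually_ge_atTop 2]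
    with H h1 h2
  have h3 := Chebyshev.pi_ge H
  have h4 := Real.log_two_gt_d9
  have h5 : (0 : ℝ) ≤ H := Nat.cast_nonneg _
  have h6 : 0 < Real.log H := Real.log_pos (by exact_mod_cast h2)
  rw [div_le_iff₀ h6] at h3
  nlinarith

lemma sqrt_le_pi (ε : ℝ) (hε : 0 < ε) : ∀ᶠ H : ℕ in atTop,
    Real.sqrt H ≤ ε * H.primeCounting := by
  filter_upwards [pi_large, log_small (ε / 4) (by positivity), eventually_ge_atTop 2] with H h1 h2 h3
  have h4 : 0 < Real.sqrt (H : ℝ) := Real.sqrt_pos.2 (by exact_mod_cast (by omega : 0 < H))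
  have h6 : Real.sqrt H * Real.sqrt H = H := Real.mul_self_sqrt (Nat.cast_nonneg _)
  have h7 : 0 ≤ (H.primeCounting : ℝ) := Nat.cast_nonneg _
  have h8 : Real.sqrt H * Real.sqrt H ≤ Real.sqrt H * (ε * H.primeCounting) := by
    rw [h6]
    calc (H : ℝ) ≤ 2 * Real.log H * H.primeCounting := h1
      _ ≤ 2 * (2 * (ε / 4) * Real.sqrt H) * H.primeCounting := by gcongr
      _ = Real.sqrt H * (ε * H.primeCounting) := by ring
  exact le_of_mul_le_mul_left h8 h4

/-- from logarithmic weights to the number of primes -/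
lemma unweight (ε : ℝ) (hε : 0 < ε) : ∀ᶠ H : ℕ in atTop, ∀ (M : ℕ) (f : ℕ → ℝ),
    (∀ q, 0 ≤ f q) → (∀ q, f q ≤ M) → ∑ q ∈ PH H, Real.log q * f q ≤ ε / 16 * (M * th H) →
    ∑ q ∈ PH H, f q ≤ ε * (M * H.primeCounting) := by
  filter_upwards [sqrt_le_pi (ε / 2) (by positivity), pi_large, eventually_ge_atTop 2]
    with H h1 h2 h3 M f hf0 hfM hf
  have hM0 : (0 : ℝ) ≤ M := Nat.cast_nonneg _
  have hl : 0 < Real.log H := Real.log_pos (by exact_mod_cast h3)
  have hH0 : (0 : ℝ) < H := by exact_mod_cast (by omega : 0 < H)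
  have hsq : Real.sqrt H * Real.sqrt H = H := Real.mul_self_sqrt hH0.le
  -- the small primes
  have s1 : ∀ q ∈ PH H, f q ≤ (if (q : ℝ) ≤ Real.sqrt H then (M : ℝ) else 0) +
      2 / Real.log H * (Real.log q * f q) := by
    intro q hq
    have hq0 : 0 ≤ Real.log q * f q := mul_nonneg (Real.log_natCast_nonneg q) (hf0 q)
    split_ifs with hc
    · have := hfM q
      have h5 : 0 ≤ 2 / Real.log H * (Real.log q * f q) := by positivity
      linarith
    · push Not at hc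
      rw [zero_add]
      have h4 : Real.log H / 2 ≤ Real.log q := by
        have h5 := Real.log_le_log (Real.sqrt_pos.2 hH0) hc.le
        rw [Real.log_sqrt hH0.le] at h5
        exact h5
      have h5 : 2 / Real.log H * (Real.log H / 2 * f q) = f q := by field_simp
      calc f q = 2 / Real.log H * (Real.log H / 2 * f q) := h5.symm
        _ ≤ 2 / Real.log H * (Real.log q * f q) := by
          apply mul_le_mul_of_nonneg_left _ (by positivity)
          exact mul_le_mul_of_nonneg_right h4 (hf0 q)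
  have s2 : ∑ q ∈ PH H, (if (q : ℝ) ≤ Real.sqrt H then (M : ℝ) else 0) ≤ Real.sqrt H * M := by
    rw [← sum_filter, sum_const, nsmul_eq_mul]
    apply mul_le_mul_of_nonneg_right _ hM0
    have h4 : (PH H).filter (fun q : ℕ => (q : ℝ) ≤ Real.sqrt H) ⊆ Icc 1 ⌊Real.sqrt H⌋₊ := by
      intro q hq
      rw [mem_filter] at hq
      unfold PH at hq
      rw [mem_filter, mem_Icc] at hq
      rw [mem_Icc]
      exact ⟨hq.1.1.1, Nat.le_floor hq.2⟩
    have h5 := card_le_card h4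
    rw [Nat.card_Icc, Nat.add_sub_cancel] at h5
    exact (Nat.cast_le.2 h5).trans (Nat.floor_le (Real.sqrt_nonneg _))
  have s3 : 2 / Real.log H * ∑ q ∈ PH H, Real.log q * f q ≤ ε / 2 * (M * H.primeCounting) := by
    have h4 := th_upper H
    calc 2 / Real.log H * ∑ q ∈ PH H, Real.log q * f q ≤ 2 / Real.log H * (ε / 16 * (M * th H)) :=
          mul_le_mul_of_nonneg_left hf (by positivity)
      _ ≤ 2 / Real.log H * (ε / 16 * (M * (7 / 5 * (2 * Real.log H * H.primeCounting)))) := by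
          gcongr
          linarith
      _ = 7 / 20 * ε * (M * H.primeCounting) := by
          field_simp
          ring
      _ ≤ ε / 2 * (M * H.primeCounting) := by
          apply mul_le_mul_of_nonneg_right _ (by positivity)
          linarith
  calc ∑ q ∈ PH H, f q ≤ ∑ q ∈ PH H, ((if (q : ℝ) ≤ Real.sqrt H then (M : ℝ) else 0) +
        2 / Real.log H * (Real.log q * f q)) := sum_le_sum s1
    _ = ∑ q ∈ PH H, (if (q : ℝ) ≤ Real.sqrt H then (M : ℝ) else 0) +
        2 / Real.log H * ∑ q ∈ PH H, Real.log q * f q := by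
        rw [sum_add_distrib, mul_sum]
    _ ≤ ε / 2 * H.primeCounting * M + ε / 2 * (M * H.primeCounting) := by
        have := mul_le_mul_of_nonneg_right h1 hM0
        linarith
    _ = ε * (M * H.primeCounting) := by ring

/-- the sum over the scales -/
lemma sum_scales (j0 j1 : ℕ) (ld β M c X s : ℝ) (hld : 0 ≤ ld) (hβ : 0 ≤ β) (hM : 0 < M)
    (hX : 0 < X) (hs : 0 < s) (hs1 : s ≤ 1 / 4) (hc : c = s ^ 2)
    (h0 : X + 1 / c * ld ≤ (4 : ℝ) ^ j0) (h1 : (4 : ℝ) ^ j1 ≤ 4 * c * M) :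
    ∑ j ∈ Icc j0 j1, (4 / ((4 ^ j : ℕ) : ℝ) + 8 * (ld / ((4 ^ j : ℕ) : ℝ)) ^ 2 +
      β * Real.sqrt (((4 ^ j : ℕ) : ℝ) / M)) ≤ 6 / X + (9 + 4 * β) * s := by
  have hc0 : 0 < c := by rw [hc]; positivity
  have hp : 0 < (4 : ℝ) ^ j0 := by positivity
  have hIco : Icc j0 j1 = Ico j0 (j1 + 1) := by
    ext j
    simp only [mem_Icc, mem_Ico]
    omega
  have t1 : ∑ j ∈ Icc j0 j1, 4 / ((4 ^ j : ℕ) : ℝ) ≤ 6 / X := by
    have h2 : ∑ j ∈ Icc j0 j1, 4 / ((4 ^ j : ℕ) : ℝ) = 4 * ∑ j ∈ Ico j0 (j1 + 1), (1 / 4 : ℝ) ^ j := by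
      rw [hIco, mul_sum]
      refine sum_congr rfl fun j _ => ?_
      push_cast
      rw [one_div, inv_pow]
      ring
    have h3 := geom_sum_Ico_le_of_lt_one (x := (1 / 4 : ℝ)) (m := j0) (n := j1 + 1) (by norm_num)
      (by norm_num)
    have h4 : (1 / 4 : ℝ) ^ j0 ≤ 1 / X := by
      rw [one_div_pow]
      apply one_div_le_one_div_of_le hX
      have : 0 ≤ 1 / c * ld := by positivity
      linarith
    rw [h2]
    calc 4 * ∑ j ∈ Ico j0 (j1 + 1), (1 / 4 : ℝ) ^ j ≤ 4 * ((1 / X) / (1 - 1 / 4)) := by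
          apply mul_le_mul_of_nonneg_left _ (by norm_num)
          refine h3.trans ?_
          apply div_le_div_of_nonneg_right h4 (by norm_num)
      _ = (16 / 3) * (1 / X) := by ring
      _ ≤ 6 * (1 / X) := by
          apply mul_le_mul_of_nonneg_right _ (by positivity)
          norm_num
      _ = 6 / X := by ring
  have t2 : ∑ j ∈ Icc j0 j1, 8 * (ld / ((4 ^ j : ℕ) : ℝ)) ^ 2 ≤ 9 * s := by
    have h2 : ∑ j ∈ Icc j0 j1, 8 * (ld / ((4 ^ j : ℕ) : ℝ)) ^ 2 =
        8 * ld ^ 2 * ∑ j ∈ Ico j0 (j1 + 1), (1 / 16 : ℝ) ^ j := by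
      rw [hIco, mul_sum]
      refine sum_congr rfl fun j _ => ?_
      push_cast
      have h5 : (16 : ℝ) ^ j = 4 ^ j * 4 ^ j := by
        rw [← mul_pow]
        norm_num
      rw [one_div, inv_pow, h5, div_pow, sq ((4 : ℝ) ^ j), mul_inv]
      field_simp
    have h3 := geom_sum_Ico_le_of_lt_one (x := (1 / 16 : ℝ)) (m := j0) (n := j1 + 1) (by norm_num)
      (by norm_num)
    have h4 : ld ≤ c * (4 : ℝ) ^ j0 := by
      have h5 : 1 / c * ld ≤ (4 : ℝ) ^ j0 := by linarith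
      have h6 : c * (1 / c * ld) ≤ c * (4 : ℝ) ^ j0 := mul_le_mul_of_nonneg_left h5 hc0.le
      have h7 : c * (1 / c * ld) = ld := by field_simp
      linarith
    have h16 : (1 / 16 : ℝ) ^ j0 * ((4 : ℝ) ^ j0 * (4 : ℝ) ^ j0) = 1 := by
      rw [← mul_pow, ← mul_pow]
      norm_num
    have h5 : ld ^ 2 * (1 / 16 : ℝ) ^ j0 ≤ c ^ 2 := by
      calc ld ^ 2 * (1 / 16 : ℝ) ^ j0 ≤ (c * (4 : ℝ) ^ j0) ^ 2 * (1 / 16 : ℝ) ^ j0 := by
            gcongr
        _ = c ^ 2 * ((1 / 16 : ℝ) ^ j0 * ((4 : ℝ) ^ j0 * (4 : ℝ) ^ j0)) := by ring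
        _ = c ^ 2 := by rw [h16, mul_one]
    have h6 : c ^ 2 ≤ s := by
      rw [hc]
      have : s ^ 2 ^ 2 ≤ s ^ 1 := by
        apply pow_le_pow_of_le_one hs.le (by linarith) (by norm_num)
      calc (s ^ 2) ^ 2 = s ^ 2 ^ 2 := by ring
        _ ≤ s ^ 1 := this
        _ = s := pow_one s
    rw [h2]
    calc 8 * ld ^ 2 * ∑ j ∈ Ico j0 (j1 + 1), (1 / 16 : ℝ) ^ j ≤
          8 * ld ^ 2 * ((1 / 16 : ℝ) ^ j0 / (1 - 1 / 16)) :=
          mul_le_mul_of_nonneg_left h3 (by positivity)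
      _ = 128 / 15 * (ld ^ 2 * (1 / 16 : ℝ) ^ j0) := by ring
      _ ≤ 9 * s := by nlinarith
  have t3 : ∑ j ∈ Icc j0 j1, β * Real.sqrt (((4 ^ j : ℕ) : ℝ) / M) ≤ 4 * β * s := by
    have h2 : ∀ j : ℕ, Real.sqrt (((4 ^ j : ℕ) : ℝ) / M) = (2 : ℝ) ^ j / Real.sqrt M := by
      intro j
      push_cast
      rw [Real.sqrt_div (by positivity)]
      congr 1
      rw [show (4 : ℝ) = 2 ^ 2 by norm_num, ← pow_mul, mul_comm, pow_mul]
      exact Real.sqrt_sq (by positivity)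
    have hsM : 0 < Real.sqrt M := Real.sqrt_pos.2 hM
    have h3 : ∑ j ∈ Icc j0 j1, (2 : ℝ) ^ j ≤ 2 * (2 : ℝ) ^ j1 := by
      calc ∑ j ∈ Icc j0 j1, (2 : ℝ) ^ j ≤ ∑ j ∈ range (j1 + 1), (2 : ℝ) ^ j := by
            apply sum_le_sum_of_subset_of_nonneg _ fun j _ _ => by positivity
            intro j hj
            rw [mem_Icc] at hj
            exact mem_range.2 (by omega)
        _ = (2 : ℝ) ^ (j1 + 1) - 1 := by
            rw [geom_sum_eq (by norm_num)]
            norm_num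
        _ ≤ 2 * (2 : ℝ) ^ j1 := by
            rw [pow_succ]
            linarith
    have h4 : (2 : ℝ) ^ j1 ≤ 2 * s * Real.sqrt M := by
      have h5 : ((2 : ℝ) ^ j1) ^ 2 ≤ (2 * s * Real.sqrt M) ^ 2 := by
        have h6 : ((2 : ℝ) ^ j1) ^ 2 = (4 : ℝ) ^ j1 := by
          rw [← pow_mul, mul_comm, pow_mul]
          norm_num
        rw [h6, mul_pow, Real.sq_sqrt hM.le]
        rw [hc] at h1
        linarith
      exact le_of_sq_le_sq h5 (by positivity)
    simp_rw [h2]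
    rw [← mul_sum, ← sum_div]
    calc β * ((∑ j ∈ Icc j0 j1, (2 : ℝ) ^ j) / Real.sqrt M) ≤
          β * ((2 * (2 * s * Real.sqrt M)) / Real.sqrt M) := by
          apply mul_le_mul_of_nonneg_left _ hβ
          apply div_le_div_of_nonneg_right _ hsM.le
          linarith
      _ = 4 * β * s := by
          field_simp
          ring
  rw [sum_add_distrib, sum_add_distrib]
  linarith

end Pool.Agent.K9h10.RP
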