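import Pool.Agent.K9h10.RP.Mom

/-!
# Second moments over the prime denominators
-/

set_option autoImplicit false

namespace Pool.Agent.K9h10.RP

open Finset Filter Topology
open Pool.Agent.H469R2.NK (e norm_e e_add e_zero conj_e)

/-- the primes up to `H` -/
def PH (H : ℕ) : Finset ℕ := (Icc 1 H).filter Nat.Prime

/-- the sum of the logarithms of the primes up to `H` -/
noncomputable def th (H : ℕ) : ℝ := ∑ q ∈ PH H, Real.log q

lemma th_nonneg (H : ℕ) : 0 ≤ th H := sum_nonneg fun q _ => Real.log_natCast_nonneg q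

lemma sum_log_primeFactors (n : ℕ) (hn : n ≠ 0) : ∑ q ∈ n.primeFactors, Real.log q ≤ Real.log n := by
  have h0 : ∀ q ∈ n.primeFactors, (q : ℝ) ≠ 0 := fun q hq => by
    exact_mod_cast (Nat.prime_of_mem_primeFactors hq).ne_zero
  rw [← Real.log_prod h0]
  apply Real.log_le_log
  · exact prod_pos fun q hq => by exact_mod_cast (Nat.prime_of_mem_primeFactors hq).pos
  · have := Nat.le_of_dvd (Nat.pos_of_ne_zero hn) (Nat.prod_primeFactors_dvd n)
    rw [← Nat.cast_prod]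
    exact Nat.cast_le.2 this

lemma sum_biUnion_le {ι : Type} [DecidableEq ι] (S : Finset ι) (t : ι → Finset ℕ) (f : ℕ → ℝ)
    (hf : ∀ q, 0 ≤ f q) : ∑ q ∈ S.biUnion t, f q ≤ ∑ i ∈ S, ∑ q ∈ t i, f q := by
  classical
  induction S using Finset.induction_on with
  | empty => simp
  | insert a S ha ih =>
    rw [biUnion_insert, sum_insert ha]
    have h1 := sum_union_inter (s₁ := t a) (s₂ := S.biUnion t) (f := f)
    have h2 : 0 ≤ ∑ q ∈ t a ∩ S.biUnion t, f q := sum_nonneg fun q _ => hf q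
    linarith

/-- the primes with a multiple near to `X` -/
lemma wcount (H : ℕ) (X T L : ℝ) (hT : 0 ≤ T) (hX : T < |X|) (hL : |X| + T ≤ Real.exp L) (hL0 : 0 ≤ L) :
    (open Classical in ∑ q ∈ (PH H).filter (fun q : ℕ => ∃ P : ℤ, |X - q * P| ≤ T), Real.log q) ≤
      (2 * T + 1) * L := by
  classical
  have hsub : (PH H).filter (fun q : ℕ => ∃ P : ℤ, |X - q * P| ≤ T) ⊆
      (Icc ⌈X - T⌉ ⌊X + T⌋).biUnion fun Z : ℤ => Z.natAbs.primeFactors := by
    intro q hq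
    rw [mem_filter] at hq
    obtain ⟨hq1, P, hP⟩ := hq
    unfold PH at hq1
    rw [mem_filter] at hq1
    rw [mem_biUnion]
    have h1 := abs_le.1 hP
    refine ⟨q * P, ?_, ?_⟩
    · rw [mem_Icc]
      constructor
      · rw [Int.ceil_le]
        push_cast
        linarith
      · rw [Int.le_floor]
        push_cast
        linarith
    · rw [Nat.mem_primeFactors]
      refine ⟨hq1.2, ?_, ?_⟩
      · rw [Int.natAbs_mul, Int.natAbs_natCast]
        exact dvd_mul_right _ _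
      · rw [Int.natAbs_ne_zero]
        intro h2
        have h3 : (q : ℝ) * P = 0 := by exact_mod_cast congrArg (Int.cast : ℤ → ℝ) h2
        rw [h3, sub_zero] at hP
        linarith
  have h1 : ∑ q ∈ (PH H).filter (fun q : ℕ => ∃ P : ℤ, |X - q * P| ≤ T), Real.log q ≤
      ∑ Z ∈ Icc ⌈X - T⌉ ⌊X + T⌋, ∑ q ∈ Z.natAbs.primeFactors, Real.log q := by
    refine (sum_le_sum_of_subset_of_nonneg hsub fun q _ _ => Real.log_natCast_nonneg q).trans ?_
    exact sum_biUnion_le _ _ _ fun q => Real.log_natCast_nonneg q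
  have h2 : ∀ Z ∈ Icc ⌈X - T⌉ ⌊X + T⌋, ∑ q ∈ Z.natAbs.primeFactors, Real.log q ≤ L := by
    intro Z hZ
    rw [mem_Icc, Int.ceil_le, Int.le_floor] at hZ
    have h3 : |X - Z| ≤ T := by
      rw [abs_le]
      constructor <;> linarith [hZ.1, hZ.2]
    have hZ0 : Z ≠ 0 := by
      rintro rfl
      rw [Int.cast_zero, sub_zero] at h3
      linarith
    refine (sum_log_primeFactors _ (Int.natAbs_ne_zero.2 hZ0)).trans ?_
    have h4 : ((Z.natAbs : ℕ) : ℝ) = |(Z : ℝ)| := by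
      rw [Nat.cast_natAbs, Int.cast_abs]
    rw [h4]
    have h5 : 0 < |(Z : ℝ)| := abs_pos.2 (by exact_mod_cast hZ0)
    have h6 : |(Z : ℝ)| ≤ |X| + T := by
      have := abs_sub_abs_le_abs_sub (Z : ℝ) X
      rw [abs_sub_comm] at this
      linarith
    calc Real.log |(Z : ℝ)| ≤ Real.log (Real.exp L) := Real.log_le_log h5 (h6.trans hL)
      _ = L := Real.log_exp L
  refine (h1.trans (sum_le_sum h2)).trans ?_
  rw [sum_const, nsmul_eq_mul]
  apply mul_le_mul_of_nonneg_right _ hL0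
  rw [Int.card_Icc]
  have h3 : ((⌊X + T⌋ + 1 - ⌈X - T⌉ : ℤ) : ℝ) ≤ 2 * T + 1 := by
    have h4 := Int.floor_le (X + T)
    have h5 := Int.le_ceil (X - T)
    push_cast
    linarith
  rcases le_total (⌊X + T⌋ + 1 - ⌈X - T⌉) 0 with h | h
  · rw [Int.toNat_of_nonpos h]
    push_cast
    linarith
  · have h6 : (((⌊X + T⌋ + 1 - ⌈X - T⌉).toNat : ℤ) : ℝ) = ((⌊X + T⌋ + 1 - ⌈X - T⌉ : ℤ) : ℝ) := by
      rw [Int.toNat_of_nonneg h]
    have h7 : (((⌊X + T⌋ + 1 - ⌈X - T⌉).toNat : ℕ) : ℝ) = ((⌊X + T⌋ + 1 - ⌈X - T⌉ : ℤ) : ℝ) := by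
      rw [← h6]
      norm_cast
    rw [h7]
    exact h3

/-- the pairs of powers which are near to each other -/
lemma pairs (b n h G : ℕ) (x T : ℝ) (hb : 2 ≤ b) (hh : 1 ≤ h) (hx : x ≠ 0) (hG : T < |x| * 2 ^ G) :
    (open Classical in (((Icc 1 n ×ˢ Icc 1 n).filter fun p : ℕ × ℕ =>
      |x * (h * ((b : ℝ) ^ p.1 - (b : ℝ) ^ p.2))| ≤ T).card : ℝ)) ≤ n + (G : ℝ) ^ 2 := by
  classical
  have hx0 : 0 < |x| := abs_pos.2 hx
  have hbR : (2 : ℝ) ≤ b := by exact_mod_cast hb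
  have key : ∀ i j : ℕ, j < i → |x * (h * ((b : ℝ) ^ i - (b : ℝ) ^ j))| ≤ T → i ≤ G := by
    intro i j hij hT
    by_contra hcon
    push Not at hcon
    have h1 : (2 : ℝ) ^ G ≤ (b : ℝ) ^ i - (b : ℝ) ^ j := by
      obtain ⟨k, rfl⟩ : ∃ k, i = k + 1 := ⟨i - 1, by omega⟩
      have h2 : (b : ℝ) ^ j ≤ (b : ℝ) ^ k := pow_le_pow_right₀ (by linarith) (by omega)
      have h3 : (2 : ℝ) ^ G ≤ (b : ℝ) ^ k :=
        (pow_le_pow_left₀ (by norm_num) hbR _).trans (pow_le_pow_right₀ (by linarith) (by omega))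
      have h4 : (2 : ℝ) * (b : ℝ) ^ k ≤ (b : ℝ) ^ (k + 1) := by
        rw [pow_succ, mul_comm]
        exact mul_le_mul_of_nonneg_left hbR (by positivity)
      linarith
    have h2 : (1 : ℝ) ≤ h := by exact_mod_cast hh
    have h3 : 0 ≤ (b : ℝ) ^ i - (b : ℝ) ^ j := le_trans (by positivity) h1
    rw [abs_mul, abs_of_nonneg (mul_nonneg (by linarith) h3 : (0 : ℝ) ≤ h * ((b : ℝ) ^ i - (b : ℝ) ^ j))] at hT
    have h4 : |x| * 2 ^ G ≤ |x| * (h * ((b : ℝ) ^ i - (b : ℝ) ^ j)) := by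
      apply mul_le_mul_of_nonneg_left _ hx0.le
      nlinarith
    linarith
  have hsub : ((Icc 1 n ×ˢ Icc 1 n).filter fun p : ℕ × ℕ =>
      |x * (h * ((b : ℝ) ^ p.1 - (b : ℝ) ^ p.2))| ≤ T) ⊆
      ((Icc 1 n).image fun i => (i, i)) ∪ (Icc 1 G ×ˢ Icc 1 G) := by
    rintro ⟨i, j⟩ hp
    rw [mem_filter, mem_product, mem_Icc, mem_Icc] at hp
    obtain ⟨⟨⟨hi1, hi2⟩, hj1, hj2⟩, hT⟩ := hp
    simp only at hi1 hi2 hj1 hj2 hT
    rw [mem_union, mem_image, mem_product, mem_Icc, mem_Icc]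
    rcases lt_trichotomy i j with hij | hij | hij
    · right
      have h1 : |x * (h * ((b : ℝ) ^ j - (b : ℝ) ^ i))| ≤ T := by
        rw [show x * (h * ((b : ℝ) ^ j - (b : ℝ) ^ i)) = -(x * (h * ((b : ℝ) ^ i - (b : ℝ) ^ j))) by ring,
          abs_neg]
        exact hT
      have := key j i hij h1
      simp only
      omega
    · left
      exact ⟨i, mem_Icc.2 ⟨hi1, hi2⟩, by rw [hij]⟩
    · right
      have := key i j hij hT
      simp only
      omega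
  have h1 := (card_le_card hsub).trans (card_union_le _ _)
  have h2 : ((Icc 1 n).image fun i => (i, i)).card ≤ n := by
    refine card_image_le.trans ?_
    rw [Nat.card_Icc, Nat.add_sub_cancel]
  rw [card_product, Nat.card_Icc, Nat.add_sub_cancel] at h1
  have h3 : (((((Icc 1 n ×ˢ Icc 1 n).filter fun p : ℕ × ℕ =>
      |x * (h * ((b : ℝ) ^ p.1 - (b : ℝ) ^ p.2))| ≤ T)).card : ℕ) : ℝ) ≤ ((n + G * G : ℕ) : ℝ) :=
    Nat.cast_le.2 (h1.trans (by omega))
  push_cast at h3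
  rw [sq]
  exact h3

/-- the pairs with frequencies near to integers, for all prime denominators -/
theorem sum_Bd (b n h G H : ℕ) (x κ L : ℝ) (hb : 2 ≤ b) (hh : 1 ≤ h) (hx : x ≠ 0) (hκ : 0 < κ)
    (hG : κ * H < |x| * 2 ^ G) (hL : |x| * (h * (b : ℝ) ^ n) + κ * H ≤ Real.exp L) (hL0 : 0 ≤ L) :
    ∑ q ∈ PH H, Real.log q * ((Bd b n h κ (x / q)).card : ℝ) ≤
      th H * (n + (G : ℝ) ^ 2) + (n : ℝ) ^ 2 * ((2 * (κ * H) + 1) * L) := by
  classical
  set X : ℕ × ℕ → ℝ := fun p => x * (h * ((b : ℝ) ^ p.1 - (b : ℝ) ^ p.2)) with hX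
  have hκH : 0 ≤ κ * H := by positivity
  have h1 : ∀ q ∈ PH H, ((Bd b n h κ (x / q)).card : ℝ) ≤
      ∑ p ∈ Icc 1 n ×ˢ Icc 1 n, (if ∃ P : ℤ, |X p - q * P| ≤ κ * H then (1 : ℝ) else 0) := by
    intro q hq
    unfold PH at hq
    rw [mem_filter, mem_Icc] at hq
    have hq0 : (0 : ℝ) < q := by exact_mod_cast hq.2.pos
    have hqH : (q : ℝ) ≤ H := by exact_mod_cast hq.1.2
    rw [← sum_filter, sum_const, nsmul_eq_mul, mul_one]
    refine Nat.cast_le.2 (card_le_card ?_)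
    intro p hp
    unfold Bd at hp
    rw [mem_filter] at hp ⊢
    refine ⟨hp.1, ?_⟩
    obtain ⟨P, hP⟩ := hp.2
    refine ⟨P, ?_⟩
    have h2 : X p - q * P = q * (x / q * (h * ((b : ℝ) ^ p.1 - (b : ℝ) ^ p.2)) - P) := by
      rw [hX]
      field_simp
    rw [h2, abs_mul, abs_of_pos hq0]
    calc (q : ℝ) * |x / q * (h * ((b : ℝ) ^ p.1 - (b : ℝ) ^ p.2)) - P| ≤ H * κ :=
          mul_le_mul hqH hP (abs_nonneg _) (by positivity)
      _ = κ * H := mul_comm _ _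
  have h2 : ∑ q ∈ PH H, Real.log q * ((Bd b n h κ (x / q)).card : ℝ) ≤
      ∑ p ∈ Icc 1 n ×ˢ Icc 1 n,
        ∑ q ∈ (PH H).filter (fun q : ℕ => ∃ P : ℤ, |X p - q * P| ≤ κ * H), Real.log q := by
    calc ∑ q ∈ PH H, Real.log q * ((Bd b n h κ (x / q)).card : ℝ) ≤
          ∑ q ∈ PH H, Real.log q * ∑ p ∈ Icc 1 n ×ˢ Icc 1 n,
            (if ∃ P : ℤ, |X p - q * P| ≤ κ * H then (1 : ℝ) else 0) :=
          sum_le_sum fun q hq => mul_le_mul_of_nonneg_left (h1 q hq) (Real.log_natCast_nonneg q)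
      _ = ∑ q ∈ PH H, ∑ p ∈ Icc 1 n ×ˢ Icc 1 n,
            (if ∃ P : ℤ, |X p - q * P| ≤ κ * H then Real.log q else 0) := by
          refine sum_congr rfl fun q _ => ?_
          rw [mul_sum]
          refine sum_congr rfl fun p _ => ?_
          split_ifs <;> simp
      _ = _ := by
          rw [sum_comm]
          refine sum_congr rfl fun p _ => ?_
          rw [sum_filter]
  refine h2.trans ?_
  have h3 : ∀ p ∈ Icc 1 n ×ˢ Icc 1 n,
      ∑ q ∈ (PH H).filter (fun q : ℕ => ∃ P : ℤ, |X p - q * P| ≤ κ * H), Real.log q ≤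
        (if |X p| ≤ κ * H then th H else 0) + (2 * (κ * H) + 1) * L := by
    intro p hp
    rw [mem_product, mem_Icc, mem_Icc] at hp
    have hpos : 0 ≤ (2 * (κ * H) + 1) * L := by positivity
    split_ifs with hc
    · have h4 : ∑ q ∈ (PH H).filter (fun q : ℕ => ∃ P : ℤ, |X p - q * P| ≤ κ * H), Real.log q ≤ th H :=
        sum_le_sum_of_subset_of_nonneg (filter_subset _ _) fun q _ _ => Real.log_natCast_nonneg q
      linarith
    · rw [zero_add]
      refine wcount H (X p) (κ * H) L hκH (not_le.1 hc) (le_trans ?_ hL) hL0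
      have h5 : |X p| ≤ |x| * (h * (b : ℝ) ^ n) := by
        rw [hX]
        simp only
        rw [abs_mul, abs_mul, abs_of_nonneg (Nat.cast_nonneg h : (0 : ℝ) ≤ h)]
        have hb1 : (1 : ℝ) ≤ b := by exact_mod_cast (by omega : 1 ≤ b)
        have h6 : |(b : ℝ) ^ p.1 - (b : ℝ) ^ p.2| ≤ (b : ℝ) ^ n := by
          have h7 : (b : ℝ) ^ p.1 ≤ (b : ℝ) ^ n := pow_le_pow_right₀ hb1 hp.1.2
          have h8 : (b : ℝ) ^ p.2 ≤ (b : ℝ) ^ n := pow_le_pow_right₀ hb1 hp.2.2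
          have h9 : (0 : ℝ) ≤ (b : ℝ) ^ p.1 := by positivity
          have h10 : (0 : ℝ) ≤ (b : ℝ) ^ p.2 := by positivity
          rw [abs_le]
          constructor <;> linarith
        gcongr
      linarith
  refine (sum_le_sum h3).trans ?_
  rw [sum_add_distrib, ← sum_filter, sum_const, sum_const, nsmul_eq_mul, nsmul_eq_mul, card_product,
    Nat.card_Icc, Nat.add_sub_cancel]
  apply add_le_add
  · rw [mul_comm]
    exact mul_le_mul_of_nonneg_left (pairs b n h G x (κ * H) hb hh hx hG) (th_nonneg H)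
  · push_cast
    rw [sq]

/-- the second moment over denominators and numerators -/
theorem mom_all (b n h G H M : ℕ) (x κ L : ℝ) (hb : 2 ≤ b) (hh : 1 ≤ h) (hx : x ≠ 0) (hκ : 0 < κ)
    (hG : κ * H < |x| * 2 ^ G) (hL : |x| * (h * (b : ℝ) ^ n) + κ * H ≤ Real.exp L) (hL0 : 0 ≤ L)
    (y : ℕ → ℝ) (J : ℕ → ℤ) :
    ∑ q ∈ PH H, Real.log q * ∑ m ∈ range M,
      ‖∑ i ∈ Icc 1 n, e (h * (y q + (J q + m) * (x / q)) * (b : ℝ) ^ i)‖ ^ 2 ≤
      M * (th H * (n + (G : ℝ) ^ 2) + (n : ℝ) ^ 2 * ((2 * (κ * H) + 1) * L)) +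
        th H * ((n : ℝ) ^ 2 * (2 / κ)) := by
  have h1 := sum_Bd b n h G H x κ L hb hh hx hκ hG hL hL0
  calc _ ≤ ∑ q ∈ PH H, Real.log q * (M * ((Bd b n h κ (x / q)).card : ℝ) + (n : ℝ) ^ 2 * (2 / κ)) :=
        sum_le_sum fun q _ => mul_le_mul_of_nonneg_left
          (mom2 b n h κ (x / q) hκ (y q) (J q) M) (Real.log_natCast_nonneg q)
    _ = M * (∑ q ∈ PH H, Real.log q * ((Bd b n h κ (x / q)).card : ℝ)) +
        th H * ((n : ℝ) ^ 2 * (2 / κ)) := by
        unfold th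
        rw [mul_sum, sum_mul, ← sum_add_distrib]
        exact sum_congr rfl fun q _ => by ring
    _ ≤ _ := by
        gcongr

end Pool.Agent.K9h10.RP
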