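import Pool.Agent.K9h10.RP.One
import Pool.Agent.K9h10.RP.Cheb

/-!
# All scales
-/

set_option autoImplicit false

namespace Pool.Agent.K9h10.RP

open Finset Filter Topology

/-- the exceptional numerators -/
noncomputable def Bad (B M : ℕ) (ε c lo x : ℝ) (y : ℕ → ℝ) (J : ℕ → ℤ) (q : ℕ) : Finset ℕ :=
  open Classical in (range M).filter fun m : ℕ => ¬ ∀ b : ℕ, 2 ≤ b → b ≤ B → ∀ n : ℕ,
    lo ≤ n → (n : ℝ) ≤ c * M → Dev b n (ε * n) (y q + (J q + m) * (x / q))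

lemma Bad_card_le (B M : ℕ) (ε c lo x : ℝ) (y : ℕ → ℝ) (J : ℕ → ℤ) (q : ℕ) :
    (Bad B M ε c lo x y J q).card ≤ M := by
  classical
  unfold Bad
  refine (card_filter_le _ _).trans ?_
  rw [card_range]

lemma Bad_sub (B M : ℕ) (ε c lo x : ℝ) (hε : 0 < ε) (hlo : 2 ≤ lo) (y : ℕ → ℝ)
    (J : ℕ → ℤ) (q : ℕ) : Bad B M ε c lo x y J q ⊆
      (Icc (Nat.clog 4 ⌈lo⌉₊) (Nat.log 4 ⌊4 * c * M⌋₊)).biUnion fun j =>
        BdN B (4 ^ j) M (ε / 4) x y J q := by
  classical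
  intro m hm
  unfold Bad at hm
  rw [mem_filter] at hm
  obtain ⟨hmM, hbad⟩ := hm
  by_contra hcon
  apply hbad
  intro b hb2 hbB n hn1 hn2
  have hn3 : (2 : ℝ) ≤ n := hlo.trans hn1
  have hn4 : 2 ≤ n := by exact_mod_cast hn3
  have h1 : n ≤ 4 ^ Nat.clog 4 n := Nat.le_pow_clog (by norm_num) n
  have h2 : 4 ^ (Nat.clog 4 n).pred < n := Nat.pow_pred_clog_lt_self (by norm_num) (by omega)
  have h3 : 0 < Nat.clog 4 n := Nat.clog_pos (by norm_num) (by omega)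
  have h4 : 4 ^ Nat.clog 4 n ≤ 4 * n := by
    obtain ⟨k, hk⟩ := Nat.exists_eq_succ_of_ne_zero h3.ne'
    rw [hk] at h2 ⊢
    rw [Nat.pred_succ] at h2
    rw [pow_succ]
    omega
  have h4' : ((4 ^ Nat.clog 4 n : ℕ) : ℝ) ≤ 4 * n := by exact_mod_cast h4
  have h5 : Nat.clog 4 n ∈ Icc (Nat.clog 4 ⌈lo⌉₊) (Nat.log 4 ⌊4 * c * M⌋₊) := by
    rw [mem_Icc]
    constructor
    · exact Nat.clog_mono_right 4 (Nat.ceil_le.2 hn1)
    · apply Nat.le_log_of_pow_le (by norm_num)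
      apply Nat.le_floor
      linarith
  have h6 : m ∉ BdN B (4 ^ Nat.clog 4 n) M (ε / 4) x y J q := fun h =>
    hcon (mem_biUnion.2 ⟨_, h5, h⟩)
  unfold BdN at h6
  rw [mem_filter, not_and, not_not] at h6
  have h7 := h6 hmM b hb2 hbB n h1
  intro α β g0 g1 g2
  refine (h7 α β g0 g1 g2).trans ?_
  nlinarith

/-- **main theorem** -/
theorem main (B : ℕ) (hB : 2 ≤ B) (ε : ℝ) (hε : 0 < ε) : ∃ c : ℝ, 0 < c ∧ ∀ x : ℝ, x ≠ 0 →
    ∃ C : ℝ, ∀ d M H : ℕ, 1 ≤ d → 1 ≤ M → M ≤ H → ∀ (y : ℕ → ℝ) (J : ℕ → ℤ),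
      ∑ q ∈ PH H, ((Bad B M ε c (C + 1 / c * Real.log ((d : ℝ) * H / M)) (x / d) y J q).card : ℝ) ≤
        ε * (M * H.primeCounting) := by
  classical
  obtain ⟨C1, β, hC1, hβ, hone⟩ := one_scale B hB (ε / 4) (by positivity)
  set s : ℝ := min (1 / 4) (ε / 16 / (2 * (C1 + 1) * (9 + 4 * β))) with hs
  have hs0 : 0 < s := lt_min (by norm_num) (by positivity)
  have hs1 : s ≤ 1 / 4 := min_le_left _ _
  have hs2 : (C1 + 1) * ((9 + 4 * β) * s) ≤ ε / 16 / 2 := by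
    have h1 : s ≤ ε / 16 / (2 * (C1 + 1) * (9 + 4 * β)) := min_le_right _ _
    rw [le_div_iff₀ (by positivity)] at h1
    linarith
  refine ⟨s ^ 2, by positivity, fun x hx => ?_⟩
  obtain ⟨N₀, hN₀⟩ := hone x hx
  obtain ⟨H₀, hH₀⟩ := eventually_atTop.1 (th_large.and (unweight ε hε))
  set X : ℝ := N₀ + H₀ + 12 * (C1 + 1) / (ε / 16) + 2 with hX
  have hX0 : 0 < 12 * (C1 + 1) / (ε / 16) := by positivity
  have hN₀0 : (0 : ℝ) ≤ N₀ := Nat.cast_nonneg _
  have hH₀0 : (0 : ℝ) ≤ H₀ := Nat.cast_nonneg _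
  have hX2 : 2 ≤ X := by rw [hX]; linarith
  have hX3 : C1 * (6 / X) ≤ ε / 16 / 2 := by
    have h1 : 12 * (C1 + 1) / (ε / 16) ≤ X := by rw [hX]; linarith
    rw [div_le_iff₀ (by positivity)] at h1
    have h2 : C1 * (6 / X) = (6 * C1) / X := by ring
    rw [h2, div_le_iff₀ (by linarith)]
    nlinarith
  refine ⟨X, fun d M H hd hM hMH y J => ?_⟩
  have hMR : (1 : ℝ) ≤ M := by exact_mod_cast hM
  have hHR : (M : ℝ) ≤ H := by exact_mod_cast hMH
  have hdR : (1 : ℝ) ≤ d := by exact_mod_cast hd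
  set ld : ℝ := Real.log ((d : ℝ) * H / M) with hld
  have hld0 : 0 ≤ ld := by
    apply Real.log_nonneg
    rw [le_div_iff₀ (by linarith)]
    nlinarith
  set c : ℝ := s ^ 2 with hc
  have hc0 : 0 < c := by positivity
  have hc1 : c ≤ 1 / 16 := by
    rw [hc]
    nlinarith
  set lo : ℝ := X + 1 / c * ld with hlo
  have hlo0 : 0 ≤ 1 / c * ld := by positivity
  by_cases hrange : lo ≤ c * M
  swap
  · -- no digits
    have h1 : ∀ q ∈ PH H, ((Bad B M ε c lo (x / d) y J q).card : ℝ) = 0 := by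
      intro q _
      rw [Nat.cast_eq_zero, card_eq_zero]
      unfold Bad
      rw [filter_eq_empty_iff]
      intro m _ hcon
      apply hcon
      intro b _ _ n hn1 hn2
      exact absurd (hn1.trans hn2) hrange
    rw [sum_eq_zero h1]
    positivity
  have hcM : c * M ≤ M / 16 := by nlinarith
  have hXM : X ≤ M / 16 := by linarith
  have hH₀H : H₀ ≤ H := by
    have : (H₀ : ℝ) ≤ H := by
      have : (H₀ : ℝ) ≤ X := by rw [hX]; linarith
      linarith
    exact_mod_cast this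
  obtain ⟨hth, hun⟩ := hH₀ H hH₀H
  apply hun M (fun q => ((Bad B M ε c lo (x / d) y J q).card : ℝ)) (fun q => Nat.cast_nonneg _)
  · intro q
    have := Bad_card_le B M ε c lo (x / d) y J q
    exact Nat.cast_le.2 this
  set j0 := Nat.clog 4 ⌈lo⌉₊ with hj0
  set j1 := Nat.log 4 ⌊4 * c * M⌋₊ with hj1
  have hj0' : lo ≤ (4 : ℝ) ^ j0 := by
    refine (Nat.le_ceil lo).trans ?_
    exact_mod_cast Nat.le_pow_clog (by norm_num) ⌈lo⌉₊
  have hj1' : (4 : ℝ) ^ j1 ≤ 4 * c * M := by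
    have h1 : ⌊4 * c * M⌋₊ ≠ 0 := by
      rw [← Nat.pos_iff_ne_zero, Nat.floor_pos]
      linarith
    have h2 := Nat.pow_log_le_self 4 h1
    have h3 : ((4 ^ j1 : ℕ) : ℝ) ≤ ⌊4 * c * M⌋₊ := Nat.cast_le.2 h2
    push_cast at h3
    exact h3.trans (Nat.floor_le (by positivity))
  have hsc := sum_scales j0 j1 ld β M c X s hld0 hβ (by linarith) (by linarith) hs0 hs1 hc hj0' hj1'
  have hth0 := th_nonneg H
  calc ∑ q ∈ PH H, Real.log q * ((Bad B M ε c lo (x / d) y J q).card : ℝ)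
      ≤ ∑ q ∈ PH H, Real.log q * ∑ j ∈ Icc j0 j1, ((BdN B (4 ^ j) M (ε / 4) (x / d) y J q).card : ℝ) := by
        refine sum_le_sum fun q _ => mul_le_mul_of_nonneg_left ?_ (Real.log_natCast_nonneg q)
        refine (Nat.cast_le.2 (card_le_card (Bad_sub B M ε c lo (x / d) hε (by linarith) y J q))).trans ?_
        refine (Nat.cast_le.2 card_biUnion_le).trans ?_
        push_cast
        exact le_rfl
    _ = ∑ j ∈ Icc j0 j1, ∑ q ∈ PH H,
          Real.log q * ((BdN B (4 ^ j) M (ε / 4) (x / d) y J q).card : ℝ) := by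
        simp_rw [mul_sum]
        rw [sum_comm]
    _ ≤ ∑ j ∈ Icc j0 j1, C1 * (M * th H * (4 / ((4 ^ j : ℕ) : ℝ) +
          8 * (ld / ((4 ^ j : ℕ) : ℝ)) ^ 2 + β * Real.sqrt (((4 ^ j : ℕ) : ℝ) / M))) := by
        refine sum_le_sum fun j hj => ?_
        rw [mem_Icc] at hj
        have h1 : lo ≤ (4 : ℝ) ^ j := hj0'.trans (pow_le_pow_right₀ (by norm_num) hj.1)
        have h2 : (4 : ℝ) ^ j ≤ 4 * c * M := (pow_le_pow_right₀ (by norm_num) hj.2).trans hj1'
        refine hN₀ d (4 ^ j) M H hd ?_ ?_ hMH ?_ hth y J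
        · have : (N₀ : ℝ) ≤ (4 : ℝ) ^ j := by
            have : (N₀ : ℝ) ≤ X := by rw [hX]; linarith
            linarith
          exact_mod_cast this
        · have : (4 : ℝ) ^ j ≤ M := by linarith
          exact_mod_cast this
        · push_cast
          have h3 : 16 * ld ≤ 1 / c * ld := by
            apply mul_le_mul_of_nonneg_right _ hld0
            rw [le_div_iff₀ hc0]
            linarith
          have h4 : ld ≤ (4 : ℝ) ^ j / 16 := by linarith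
          have h5 : 0 < (4 : ℝ) ^ j := by positivity
          linarith
    _ = C1 * (M * th H) * ∑ j ∈ Icc j0 j1, (4 / ((4 ^ j : ℕ) : ℝ) +
          8 * (ld / ((4 ^ j : ℕ) : ℝ)) ^ 2 + β * Real.sqrt (((4 ^ j : ℕ) : ℝ) / M)) := by
        rw [mul_sum]
        exact sum_congr rfl fun j _ => by ring
    _ ≤ C1 * (M * th H) * (6 / X + (9 + 4 * β) * s) := by
        apply mul_le_mul_of_nonneg_left hsc
        positivity
    _ = (C1 * (6 / X) + C1 * ((9 + 4 * β) * s)) * (M * th H) := by ring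
    _ ≤ ε / 16 * (M * th H) := by
        apply mul_le_mul_of_nonneg_right _ (by positivity)
        have h1 : C1 * ((9 + 4 * β) * s) ≤ (C1 + 1) * ((9 + 4 * β) * s) := by
          apply mul_le_mul_of_nonneg_right (by linarith)
          positivity
        linarith

end Pool.Agent.K9h10.RP
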