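import Pool.Agent.R485.Mult.Disc

/-!
# Second moments over the numerators
-/

set_option autoImplicit false

namespace Pool.Agent.K9h10.RP

open Finset Filter Topology
open Pool.Agent.H469R2.NK (e norm_e e_add e_zero conj_e)
open Pool.Agent.R485.Mult

lemma sq_expand (n b : ℕ) (c : ℝ) :
    ((‖∑ i ∈ Icc 1 n, e (c * (b : ℝ) ^ i)‖ ^ 2 : ℝ) : ℂ) =
      ∑ p ∈ Icc 1 n ×ˢ Icc 1 n, e (c * ((b : ℝ) ^ p.1 - (b : ℝ) ^ p.2)) := by
  set S := ∑ i ∈ Icc 1 n, e (c * (b : ℝ) ^ i) with hS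
  have h1 : ((‖S‖ ^ 2 : ℝ) : ℂ) = S * (starRingEnd ℂ) S := by
    rw [Complex.mul_conj, Complex.normSq_eq_norm_sq]
  have h2 : (starRingEnd ℂ) S = ∑ i ∈ Icc 1 n, e (-(c * (b : ℝ) ^ i)) := by
    rw [hS, map_sum]
    exact sum_congr rfl fun i _ => conj_e _
  rw [h1, h2, hS, sum_mul_sum, sum_product]
  refine sum_congr rfl fun i _ => sum_congr rfl fun j _ => ?_
  rw [← e_add]
  congr 1
  ring

/-- the pairs for which the frequency is near to an integer -/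
noncomputable def Bd (b n h : ℕ) (κ θ : ℝ) : Finset (ℕ × ℕ) :=
  open Classical in (Icc 1 n ×ˢ Icc 1 n).filter fun p =>
    ∃ P : ℤ, |θ * (h * ((b : ℝ) ^ p.1 - (b : ℝ) ^ p.2)) - P| ≤ κ

/-- the second moment -/
theorem mom2 (b n h : ℕ) (κ θ : ℝ) (hκ : 0 < κ) (y : ℝ) (J : ℤ) (M : ℕ) :
    ∑ m ∈ range M, ‖∑ i ∈ Icc 1 n, e (h * (y + (J + m) * θ) * (b : ℝ) ^ i)‖ ^ 2 ≤
      M * ((Bd b n h κ θ).card : ℝ) + (n : ℝ) ^ 2 * (2 / κ) := by
  classical
  set K : ℕ × ℕ → ℝ := fun p => (b : ℝ) ^ p.1 - (b : ℝ) ^ p.2 with hK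
  set PP := Icc 1 n ×ˢ Icc 1 n with hPP
  have h1 : ((∑ m ∈ range M, ‖∑ i ∈ Icc 1 n, e (h * (y + (J + m) * θ) * (b : ℝ) ^ i)‖ ^ 2 : ℝ)
      : ℂ) = ∑ p ∈ PP, ∑ m ∈ range M, e (h * y * K p + (J + m) * (θ * (h * K p))) := by
    rw [Complex.ofReal_sum, sum_comm]
    refine sum_congr rfl fun m _ => ?_
    rw [sq_expand]
    refine sum_congr rfl fun p _ => ?_
    congr 1
    rw [hK]
    ring
  have h2 : ∑ m ∈ range M, ‖∑ i ∈ Icc 1 n, e (h * (y + (J + m) * θ) * (b : ℝ) ^ i)‖ ^ 2 =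
      ‖∑ p ∈ PP, ∑ m ∈ range M, e (h * y * K p + (J + m) * (θ * (h * K p)))‖ := by
    rw [← h1, Complex.norm_real, Real.norm_eq_abs, abs_of_nonneg]
    exact sum_nonneg fun m _ => by positivity
  rw [h2]
  have hκ2 : 0 < 2 / κ := by positivity
  have h3 : ∀ p ∈ PP, ‖∑ m ∈ range M, e (h * y * K p + (J + m) * (θ * (h * K p)))‖ ≤
      (if ∃ P : ℤ, |θ * (h * ((b : ℝ) ^ p.1 - (b : ℝ) ^ p.2)) - P| ≤ κ then (M : ℝ) else 0) + 2 / κ := by
    intro p hp
    split_ifs with hp0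
    · have : ‖∑ m ∈ range M, e (h * y * K p + (J + m) * (θ * (h * K p)))‖ ≤ M := by
        refine (norm_sum_le _ _).trans ?_
        rw [sum_congr rfl fun m _ => norm_e _]
        simp
      exact this.trans (le_add_of_nonneg_right hκ2.le)
    · rw [zero_add]
      push Not at hp0
      exact geom (θ * (h * K p)) κ hκ hp0 (h * y * K p) J M
  refine (norm_sum_le _ _).trans ((sum_le_sum h3).trans ?_)
  rw [sum_add_distrib, ← sum_filter, sum_const, sum_const, nsmul_eq_mul, nsmul_eq_mul]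
  apply add_le_add
  · rw [mul_comm]
    unfold Bd
    exact le_of_eq (by congr)
  · apply mul_le_mul_of_nonneg_right _ hκ2.le
    rw [hPP, card_product, Nat.card_Icc, Nat.add_sub_cancel]
    push_cast
    rw [sq]

/-- few exponential sums and the intervals -/
theorem dev_few (t : ℕ → ℝ) (n K : ℕ) (hK : 1 ≤ K) (T : ℝ)
    (hT : ∀ h : ℕ, 1 ≤ h → h ≤ K → ‖∑ i ∈ Icc 1 n, e (h * t i)‖ ≤ T) (α β : ℝ) (h0 : 0 ≤ α)
    (h1 : α < β) (h2 : β ≤ 1) :
    |(((Icc 1 n).filter (fun i : ℕ => α ≤ Int.fract (t i) ∧ Int.fract (t i) < β)).card : ℝ) -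
      (β - α) * n| ≤ 2 * (T * (1 + Real.log K) + 2 * n / Real.sqrt K) := by
  classical
  have hKR : (1 : ℝ) ≤ K := by exact_mod_cast hK
  have hK0 : (0 : ℝ) < K := by linarith
  have hT0 : 0 ≤ T := (norm_nonneg _).trans (hT 1 le_rfl hK)
  have hsq : (1 : ℝ) ≤ Real.sqrt K := by
    rw [show (1 : ℝ) = Real.sqrt 1 by simp]
    exact Real.sqrt_le_sqrt hKR
  have hsq0 : 0 < Real.sqrt K := by linarith
  have hsq2 : Real.sqrt K * Real.sqrt K = K := Real.mul_self_sqrt hK0.le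
  have hharm : ∑ h ∈ Icc 1 K, (1 : ℝ) / h ≤ 1 + Real.log K := by
    have h3 := harmonic_le_one_add_log K
    rw [harmonic_eq_sum_Icc] at h3
    push_cast at h3
    refine le_trans (le_of_eq ?_) h3
    exact sum_congr rfl fun h _ => by rw [one_div]
  have key : ∀ γ : ℝ, |∑ i ∈ Icc 1 n, (Int.fract (t i - γ) - 1 / 2)| ≤
      T * (1 + Real.log K) + 2 * n / Real.sqrt K := by
    intro γ
    have h3 := saw_bound (Icc 1 n) (fun i => t i - γ) K hK (1 / Real.sqrt K) (by positivity)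
      (by rw [div_le_one (by positivity)]; exact hsq)
    refine h3.trans ?_
    have h4 : ∀ h ∈ Icc 1 K, ‖∑ i ∈ Icc 1 n, e (h * (t i - γ))‖ / h ≤ T * (1 / h) := by
      intro h hh
      rw [mem_Icc] at hh
      have h5 : ∑ i ∈ Icc 1 n, e (h * (t i - γ)) = e (-(h * γ)) * ∑ i ∈ Icc 1 n, e (h * t i) := by
        rw [mul_sum]
        refine sum_congr rfl fun i _ => ?_
        rw [← e_add]
        congr 1
        ring
      rw [h5, norm_mul, norm_e, one_mul, mul_one_div]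
      gcongr
      exact hT h hh.1 hh.2
    have h6 : ∑ h ∈ Icc 1 K, ‖∑ i ∈ Icc 1 n, e (h * (t i - γ))‖ / h ≤ T * (1 + Real.log K) := by
      refine (sum_le_sum h4).trans ?_
      rw [← mul_sum]
      exact mul_le_mul_of_nonneg_left hharm hT0
    have hc : (((Icc 1 n).card : ℕ) : ℝ) = n := by
      rw [Nat.card_Icc, Nat.add_sub_cancel]
    have h7 : (((Icc 1 n).card : ℕ) : ℝ) / (K * (1 / Real.sqrt K)) = n / Real.sqrt K := by
      have : (K : ℝ) * (1 / Real.sqrt K) = Real.sqrt K := by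
        field_simp
        nlinarith
      rw [this, hc]
    have h8 : (((Icc 1 n).card : ℕ) : ℝ) * (1 / Real.sqrt K) = n / Real.sqrt K := by
      rw [mul_one_div, hc]
    have h9 : 2 * (n : ℝ) / Real.sqrt K = n / Real.sqrt K + n / Real.sqrt K := by ring
    linarith
  have h3 : (((Icc 1 n).filter (fun i : ℕ => α ≤ Int.fract (t i) ∧ Int.fract (t i) < β)).card : ℝ) -
      (β - α) * n = ∑ i ∈ Icc 1 n, (Int.fract (t i - β) - 1 / 2) -
        ∑ i ∈ Icc 1 n, (Int.fract (t i - α) - 1 / 2) := by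
    rw [← sum_sub_distrib]
    rw [← sum_congr rfl fun i _ => indicator_eq (t i) α β h0 h1 h2]
    rw [sum_sub_distrib, sum_const, card_filter]
    push_cast
    rw [Nat.card_Icc, Nat.add_sub_cancel, nsmul_eq_mul]
    ring
  rw [h3]
  refine (abs_sub _ _).trans ?_
  linarith [key α, key β]

end Pool.Agent.K9h10.RP
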