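import Pool.Agent.K9h10.RP.Scale

/-!
# One scale, with the parameters chosen
-/

set_option autoImplicit false

namespace Pool.Agent.K9h10.RP

open Finset Filter Topology

/-- **one scale, with the parameters chosen** -/
theorem one_scale (B : ℕ) (hB : 2 ≤ B) (η : ℝ) (hη : 0 < η) : ∃ C β : ℝ, 0 ≤ C ∧ 0 ≤ β ∧
    ∀ x : ℝ, x ≠ 0 → ∃ N₀ : ℕ, ∀ d N M H : ℕ, 1 ≤ d → N₀ ≤ N → N ≤ M → M ≤ H →
      Real.log ((d : ℝ) * H / M) ≤ N / 2 → (H : ℝ) / 2 ≤ th H → ∀ (y : ℕ → ℝ) (J : ℕ → ℤ),
      ∑ q ∈ PH H, Real.log q * ((BdN B N M η (x / d) y J q).card : ℝ) ≤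
        C * (M * th H * (4 / N + 8 * (Real.log ((d : ℝ) * H / M) / N) ^ 2 +
          β * Real.sqrt ((N : ℝ) / M))) := by
  obtain ⟨K, R, C, hK, hC, hscale⟩ := scale B hB η hη
  have hlB : 0 ≤ Real.log B := Real.log_natCast_nonneg B
  refine ⟨C, 6 * (Real.log B + 1) + 2, hC, by positivity, fun x hx => ?_⟩
  have hx0 : 0 < |x| := abs_pos.2 hx
  set g : ℝ := 2 * Real.log (1 / |x| + 1) with hg
  have hg0 : 0 ≤ g := by
    have : 0 ≤ Real.log (1 / |x| + 1) := Real.log_nonneg (by
      have : 0 < 1 / |x| := by positivity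
      linarith)
    positivity
  have ev1 : ∀ᶠ N : ℕ in atTop, 2 * (2 * Real.log N + g + 1) ^ 2 ≤ N := by
    have h1 : ∀ᶠ t : ℝ in atTop, ‖Real.log t ^ 2‖ ≤ (1 / (2 * (3 + g) ^ 2)) * ‖t‖ :=
      (Real.isLittleO_pow_log_id_atTop (n := 2)).def (by positivity)
    have h2 : ∀ᶠ t : ℝ in atTop, 1 ≤ Real.log t := Real.tendsto_log_atTop.eventually_ge_atTop 1
    filter_upwards [tendsto_natCast_atTop_atTop.eventually h1,
      tendsto_natCast_atTop_atTop.eventually h2] with N hN1 hN2
    rw [Real.norm_of_nonneg (by positivity), Real.norm_of_nonneg (by positivity)] at hN1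
    have h3 : 2 * Real.log N + g + 1 ≤ (3 + g) * Real.log N := by nlinarith
    calc 2 * (2 * Real.log N + g + 1) ^ 2 ≤ 2 * ((3 + g) * Real.log N) ^ 2 := by
          have : 0 ≤ 2 * Real.log N + g + 1 := by positivity
          gcongr
      _ = 2 * (3 + g) ^ 2 * Real.log N ^ 2 := by ring
      _ ≤ 2 * (3 + g) ^ 2 * (1 / (2 * (3 + g) ^ 2) * N) := by gcongr
      _ = N := by
          have : 3 + g ≠ 0 := by positivity
          field_simp
  have ev2 : ∀ᶠ N : ℕ in atTop, |x| * K ≤ Real.exp N / 2 := by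
    have h1 : ∀ᶠ t : ℝ in atTop, 2 * (|x| * K) ≤ Real.exp t :=
      Real.tendsto_exp_atTop.eventually_ge_atTop _
    filter_upwards [tendsto_natCast_atTop_atTop.eventually h1] with N hN
    linarith
  obtain ⟨N₀, hN₀⟩ := eventually_atTop.1 (ev1.and (ev2.and ((eventually_ge_atTop R).and
    (eventually_ge_atTop 16))))
  refine ⟨N₀, fun d N M H hd hN hNM hMH hD hth y J => ?_⟩
  obtain ⟨e1, e2, e3, e4⟩ := hN₀ N hN
  have hN1 : (16 : ℝ) ≤ N := by exact_mod_cast e4
  have hN0 : (0 : ℝ) < N := by linarith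
  have hM1 : (N : ℝ) ≤ M := by exact_mod_cast hNM
  have hM0 : (0 : ℝ) < M := by linarith
  have hH1 : (M : ℝ) ≤ H := by exact_mod_cast hMH
  have hH0 : (0 : ℝ) < H := by linarith
  set D : ℝ := (H : ℝ) / M with hDdef
  have hD1 : 1 ≤ D := by
    rw [hDdef, le_div_iff₀ hM0]
    linarith
  have hdR : (1 : ℝ) ≤ d := by exact_mod_cast hd
  have hd0 : (0 : ℝ) < d := by linarith
  have hdD : (d : ℝ) * H / M = d * D := by
    rw [hDdef]
    ring
  have hDdD : D ≤ d * D := by nlinarith
  rw [hdD] at hD ⊢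
  set ld : ℝ := Real.log (d * D) with hld
  have hld0 : 0 ≤ ld := Real.log_nonneg (hD1.trans hDdD)
  have hexpld : Real.exp ld = d * D := Real.exp_log (by positivity)
  have hlN : 0 ≤ Real.log N := Real.log_natCast_nonneg N
  set s : ℝ := Real.sqrt ((N : ℝ) / M) with hs
  set u : ℝ := Real.sqrt ((M : ℝ) / N) with hu
  have hs0 : 0 < s := Real.sqrt_pos.2 (by positivity)
  have hu0 : 0 < u := Real.sqrt_pos.2 (by positivity)
  have hs2 : s ^ 2 = N / M := Real.sq_sqrt (by positivity)
  have hsu : s * u = 1 := by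
    rw [hs, hu, ← Real.sqrt_mul (by positivity)]
    have : (N : ℝ) / M * (M / N) = 1 := by field_simp
    rw [this, Real.sqrt_one]
  have hu1 : 1 ≤ u := by
    rw [hu]
    apply Real.le_sqrt_of_sq_le
    rw [one_pow, le_div_iff₀ hN0]
    linarith
  have huN : u * N = s * M := by
    have h1 : (N : ℝ) = s ^ 2 * M := by
      rw [hs2]
      field_simp
    calc u * N = u * (s ^ 2 * M) := by rw [← h1]
      _ = (s * u) * (s * M) := by ring
      _ = s * M := by rw [hsu, one_mul]
  set T : ℝ := min u N with hT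
  have hT1 : 1 ≤ T := le_min hu1 (by linarith)
  have hT0 : 0 < T := by linarith
  have hTu : T ≤ u := min_le_left _ _
  have hTN : T ≤ N := min_le_right _ _
  have hTinv : 2 / T ≤ 2 / N + 2 * s := by
    have hs1 : s = 1 / u := by
      field_simp
      exact hsu
    rcases min_choice u (N : ℝ) with h | h
    · rw [hT, h, hs1]
      have : 0 ≤ 2 / (N : ℝ) := by positivity
      have h2 : 2 / u = 2 * (1 / u) := by ring
      linarith
    · rw [hT, h]
      linarith
  set G : ℕ := ⌈2 * (Real.log N + ld) + g⌉₊ with hG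
  have hG1 : 2 * (Real.log N + ld) + g ≤ G := Nat.le_ceil _
  have hG2 : (G : ℝ) ≤ 2 * (Real.log N + ld) + g + 1 := (Nat.ceil_lt_add_one (by positivity)).le
  have hpow : N * (d * D) * (1 / |x| + 1) ≤ (2 : ℝ) ^ G := by
    have h1 : (2 : ℝ) ^ G = Real.exp (G * Real.log 2) := by
      rw [mul_comm, Real.exp_mul, Real.exp_log (by norm_num), Real.rpow_natCast]
    have h2 : Real.log N + ld + Real.log (1 / |x| + 1) ≤ G * Real.log 2 := by
      have h3 := Real.log_two_gt_d9
      have h4 : (G : ℝ) * (1 / 2) ≤ G * Real.log 2 := by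
        apply mul_le_mul_of_nonneg_left _ (Nat.cast_nonneg _)
        linarith
      rw [hg] at hG1
      linarith
    rw [h1]
    refine le_trans (le_of_eq ?_) (Real.exp_le_exp.2 h2)
    rw [Real.exp_add, Real.exp_add, hexpld, Real.exp_log hN0, Real.exp_log (by positivity)]
  have hκH : T / M * H = T * D := by
    rw [hDdef]
    ring
  have habs : |x / d| = |x| / d := by rw [abs_div, abs_of_pos hd0]
  have hGx : T / M * H < |x / d| * 2 ^ G := by
    rw [hκH, habs, div_mul_eq_mul_div, lt_div_iff₀ hd0]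
    have h1 : |x| * (N * (d * D) * (1 / |x| + 1)) = N * (d * D) * (1 + |x|) := by
      field_simp
    have h2 : |x| * (N * (d * D) * (1 / |x| + 1)) ≤ |x| * 2 ^ G :=
      mul_le_mul_of_nonneg_left hpow hx0.le
    have h3 : T * (d * D) ≤ N * (d * D) := mul_le_mul_of_nonneg_right hTN (by positivity)
    have h4 : 0 < N * (d * D) * |x| := by positivity
    have h5 : T * D * d = T * (d * D) := by ring
    rw [h5]
    nlinarith
  have hexpN : Real.exp (N * (Real.log B + 1)) = (B : ℝ) ^ N * Real.exp N := by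
    have hB0 : (0 : ℝ) < B := by exact_mod_cast (by omega : 0 < B)
    rw [mul_add, mul_one, Real.exp_add]
    congr 1
    rw [mul_comm, Real.exp_mul, Real.exp_log hB0, Real.rpow_natCast]
  have hL : |x / d| * (K * (B : ℝ) ^ N) + T / M * H ≤ Real.exp (N * (Real.log B + 1)) := by
    rw [hexpN, hκH, habs]
    have h0 : |x| / d * (K * (B : ℝ) ^ N) ≤ |x| * (K * (B : ℝ) ^ N) := by
      apply mul_le_mul_of_nonneg_right _ (by positivity)
      rw [div_le_iff₀ hd0]
      nlinarith
    have h1 : (1 : ℝ) ≤ (B : ℝ) ^ N := one_le_pow₀ (by exact_mod_cast (by omega : 1 ≤ B))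
    have h2 : |x| * (K * (B : ℝ) ^ N) ≤ (B : ℝ) ^ N * (Real.exp N / 2) := by
      calc |x| * (K * (B : ℝ) ^ N) = (B : ℝ) ^ N * (|x| * K) := by ring
        _ ≤ (B : ℝ) ^ N * (Real.exp N / 2) := by gcongr
    have h3 : T * D ≤ Real.exp N / 2 := by
      have h4 : D ≤ Real.exp (N / 2) := by
        refine hDdD.trans ?_
        rw [← hexpld]
        exact Real.exp_le_exp.2 hD
      have h5 : Real.exp N = Real.exp (N / 2) * Real.exp (N / 2) := by
        rw [← Real.exp_add]
        congr 1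
        ring
      have h6 := Real.quadratic_le_exp_of_nonneg (x := (N : ℝ) / 2) (by positivity)
      have h7 : (N : ℝ) ≤ Real.exp (N / 2) / 2 := by nlinarith
      rw [h5]
      have h8 : T * D ≤ Real.exp (N / 2) / 2 * Real.exp (N / 2) :=
        mul_le_mul (hTN.trans h7) h4 (by linarith) (by positivity)
      linarith
    have h4 : Real.exp N / 2 ≤ (B : ℝ) ^ N * (Real.exp N / 2) := by
      have : 0 < Real.exp N / 2 := by positivity
      nlinarith
    linarith
  have hmain := hscale N M H G (x / d) (T / M) (N * (Real.log B + 1)) y J e3 (by omega)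
    (div_ne_zero hx hd0.ne') (by positivity) hGx hL (by positivity)
  refine hmain.trans (mul_le_mul_of_nonneg_left ?_ hC)
  have hth0 : 0 ≤ th H := th_nonneg H
  have b1 : 1 / (N : ℝ) + ((G : ℝ) / N) ^ 2 ≤ 2 / N + 8 * (ld / N) ^ 2 := by
    have h1 : (G : ℝ) ^ 2 ≤ 2 * (2 * Real.log N + g + 1) ^ 2 + 8 * ld ^ 2 := by
      have h2 : (G : ℝ) ^ 2 ≤ ((2 * Real.log N + g + 1) + 2 * ld) ^ 2 := by
        apply pow_le_pow_left₀ (Nat.cast_nonneg _)
        linarith
      nlinarith [sq_nonneg ((2 * Real.log N + g + 1) - 2 * ld)]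
    have h3 : (G : ℝ) ^ 2 ≤ N + 8 * ld ^ 2 := by linarith
    have h4 : ((G : ℝ) / N) ^ 2 ≤ 1 / N + 8 * (ld / N) ^ 2 := by
      have h5 : 1 / (N : ℝ) + 8 * (ld / N) ^ 2 = (N + 8 * ld ^ 2) / N ^ 2 := by field_simp
      rw [h5, div_pow]
      gcongr
    have h5 : 2 / (N : ℝ) = 1 / N + 1 / N := by ring
    linarith
  have b2 : (2 * (T / M * H) + 1) * (N * (Real.log B + 1)) ≤ th H * (6 * (Real.log B + 1) * s) := by
    rw [hκH]
    have h1 : 1 ≤ T * D := by nlinarith
    have h2 : D * M ≤ 2 * th H := by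
      have : D * M = H := by
        rw [hDdef]
        field_simp
      linarith
    have h3 : T * N ≤ s * M := by
      rw [← huN]
      exact mul_le_mul_of_nonneg_right hTu hN0.le
    calc (2 * (T * D) + 1) * (N * (Real.log B + 1)) ≤ (3 * (T * D)) * (N * (Real.log B + 1)) := by
          apply mul_le_mul_of_nonneg_right _ (by positivity)
          linarith
      _ = 3 * (Real.log B + 1) * D * (T * N) := by ring
      _ ≤ 3 * (Real.log B + 1) * D * (s * M) := by
          apply mul_le_mul_of_nonneg_left h3 (by positivity)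
      _ = 3 * (Real.log B + 1) * s * (D * M) := by ring
      _ ≤ 3 * (Real.log B + 1) * s * (2 * th H) := by
          apply mul_le_mul_of_nonneg_left h2 (by positivity)
      _ = th H * (6 * (Real.log B + 1) * s) := by ring
  have b3 : 2 / (T / M) ≤ M * (2 / N + 2 * s) := by
    have h1 : 2 / (T / M) = M * (2 / T) := by field_simp
    rw [h1]
    exact mul_le_mul_of_nonneg_left hTinv hM0.le
  calc M * (th H * (1 / N + ((G : ℝ) / N) ^ 2) + (2 * (T / M * H) + 1) * (N * (Real.log B + 1))) +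
        th H * (2 / (T / M)) ≤
      M * (th H * (2 / N + 8 * (ld / N) ^ 2) + th H * (6 * (Real.log B + 1) * s)) +
        th H * (M * (2 / N + 2 * s)) := by
        gcongr
    _ = M * th H * (4 / N + 8 * (ld / N) ^ 2 + (6 * (Real.log B + 1) + 2) * s) := by ring

end Pool.Agent.K9h10.RP
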