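import Pool.Agent.K9h10.RP.Cnt

/-!
# One scale
-/

set_option autoImplicit false

namespace Pool.Agent.K9h10.RP

open Finset Filter Topology
open Pool.Agent.H469R2.NK (e norm_e e_add e_zero conj_e)

/-- the first `n` digits of `z` are equidistributed up to `E` -/
def Dev (b n : ℕ) (E z : ℝ) : Prop := ∀ α β : ℝ, 0 ≤ α → α < β → β ≤ 1 →
  |(((Icc 1 n).filter (fun i : ℕ => α ≤ Int.fract (z * (b : ℝ) ^ i) ∧
    Int.fract (z * (b : ℝ) ^ i) < β)).card : ℝ) - (β - α) * n| ≤ E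

/-- longer initial segments -/
lemma Dev_mono (b n s : ℕ) (E z : ℝ) (h : Dev b n E z) : Dev b (n + s) (E + s) z := by
  classical
  intro α β h0 h1 h2
  have h3 := h α β h0 h1 h2
  set P : ℕ → Prop := fun i => α ≤ Int.fract (z * (b : ℝ) ^ i) ∧ Int.fract (z * (b : ℝ) ^ i) < β with hP
  have e1 : (Icc 1 (n + s)).filter P = (Icc 1 n).filter P ∪ (Icc (n + 1) (n + s)).filter P := by
    rw [← filter_union]
    congr 1
    ext i
    simp only [mem_union, mem_Icc]
    omega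
  have e2 : ((Icc 1 (n + s)).filter P).card = ((Icc 1 n).filter P).card +
      ((Icc (n + 1) (n + s)).filter P).card := by
    rw [e1, card_union_of_disjoint]
    rw [disjoint_left]
    intro i hi hi'
    rw [mem_filter, mem_Icc] at hi hi'
    omega
  have h4 : (((Icc (n + 1) (n + s)).filter P).card : ℝ) ≤ s := by
    have := card_filter_le (Icc (n + 1) (n + s)) P
    rw [Nat.card_Icc] at this
    have h5 : n + s + 1 - (n + 1) = s := by omega
    rw [h5] at this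
    exact_mod_cast this
  have h5 : (0 : ℝ) ≤ (((Icc (n + 1) (n + s)).filter P).card : ℝ) := Nat.cast_nonneg _
  rw [e2]
  have h6 : (0 : ℝ) ≤ s := Nat.cast_nonneg _
  rw [abs_le] at h3 ⊢
  push_cast
  constructor <;> nlinarith [h3.1, h3.2]

/-- the parameters -/
lemma params (η : ℝ) (hη : 0 < η) : ∃ (K R : ℕ) (τ : ℝ), 1 ≤ K ∧ 1 ≤ R ∧ 0 < τ ∧
    2 * (τ * (1 + Real.log K) + 2 / Real.sqrt K) + 2 / R ≤ η := by
  obtain ⟨K, hK⟩ := exists_nat_gt ((12 / η) ^ 2)
  obtain ⟨R, hR⟩ := exists_nat_gt (6 / η)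
  have hK0 : (0 : ℝ) < K := lt_of_le_of_lt (by positivity) hK
  have hR0 : (0 : ℝ) < R := lt_of_le_of_lt (by positivity) hR
  have hK1 : 1 ≤ K := by exact_mod_cast hK0
  have hR1 : 1 ≤ R := by exact_mod_cast hR0
  have hl : 0 ≤ Real.log K := Real.log_natCast_nonneg K
  refine ⟨K, R, η / (6 * (1 + Real.log K)), hK1, hR1, by positivity, ?_⟩
  have h1 : η / (6 * (1 + Real.log K)) * (1 + Real.log K) = η / 6 := by
    field_simp
  have h2 : 12 / η ≤ Real.sqrt K := Real.le_sqrt_of_sq_le hK.le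
  have h3 : 2 / Real.sqrt K ≤ η / 6 := by
    have h4 : 0 < Real.sqrt K := Real.sqrt_pos.2 hK0
    rw [div_le_iff₀ h4]
    rw [div_le_iff₀ hη] at h2
    linarith
  have h4 : 2 / (R : ℝ) ≤ η / 3 := by
    rw [div_le_iff₀ hR0]
    rw [div_lt_iff₀ hη] at hR
    linarith
  rw [h1]
  linarith

/-- small exponential sums -/
lemma Dev_of (b N K R : ℕ) (τ η z : ℝ) (hK : 1 ≤ K) (hR : 1 ≤ R) (hτ : 0 < τ) (hRN : R ≤ N)
    (hp : 2 * (τ * (1 + Real.log K) + 2 / Real.sqrt K) + 2 / R ≤ η)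
    (h : ∀ l : ℕ, l ≤ R → ∀ h : ℕ, 1 ≤ h → h ≤ K → l * (N / R + 1) ≤ N →
      ‖∑ i ∈ Icc 1 (l * (N / R + 1)), e (h * (z * (b : ℝ) ^ i))‖ ≤ τ * N) :
    ∀ n : ℕ, n ≤ N → Dev b n (η * N) z := by
  intro n hn
  set s : ℕ := N / R + 1 with hs
  have hNR : (0 : ℝ) < N := by exact_mod_cast (by omega : 0 < N)
  have hRR : (0 : ℝ) < R := by exact_mod_cast hR
  have h1 : n / s * s + n % s = n := by
    rw [mul_comm]
    exact Nat.div_add_mod n s
  have h2 : n / s ≤ R := by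
    have h3 : N < s * R := by
      rw [hs, add_mul, one_mul]
      have := Nat.div_add_mod N R
      have h4 := Nat.mod_lt N (by omega : R > 0)
      rw [mul_comm] at this
      omega
    have h4 : n / s < R := by
      rw [Nat.div_lt_iff_lt_mul (Nat.succ_pos _), mul_comm]
      exact lt_of_le_of_lt hn h3
    exact h4.le
  have h3 : n / s * s ≤ N := (Nat.div_mul_le_self n s).trans hn
  have h4 : Dev b (n / s * s) (2 * (τ * N * (1 + Real.log K) + 2 * (n / s * s : ℕ) / Real.sqrt K)) z := by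
    intro α β g0 g1 g2
    exact dev_few (fun i => z * (b : ℝ) ^ i) (n / s * s) K hK (τ * N)
      (fun h' hh1 hh2 => h (n / s) h2 h' hh1 hh2 h3) α β g0 g1 g2
  have h5 := Dev_mono b (n / s * s) (n % s) _ z h4
  rw [h1] at h5
  intro α β g0 g1 g2
  refine (h5 α β g0 g1 g2).trans ?_
  have h6 : ((n % s : ℕ) : ℝ) ≤ 2 / R * N := by
    have h7 : n % s ≤ N / R := Nat.le_of_lt_succ (Nat.mod_lt n (Nat.succ_pos _))
    have h8 : ((n % s : ℕ) : ℝ) ≤ ((N / R : ℕ) : ℝ) := Nat.cast_le.2 h7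
    have h9 : ((N / R : ℕ) : ℝ) ≤ N / R := Nat.cast_div_le
    have h10 : (N : ℝ) / R ≤ 2 / R * N := by
      rw [div_mul_eq_mul_div]
      gcongr
      linarith
    linarith
  have h7 : ((n / s * s : ℕ) : ℝ) ≤ N := Nat.cast_le.2 h3
  have hsq : 0 < Real.sqrt K := Real.sqrt_pos.2 (by exact_mod_cast hK)
  have h8 : 2 * ((n / s * s : ℕ) : ℝ) / Real.sqrt K ≤ 2 / Real.sqrt K * N := by
    rw [div_mul_eq_mul_div]
    gcongr
  have h9 : (2 * (τ * (1 + Real.log K) + 2 / Real.sqrt K) + 2 / R) * N ≤ η * N :=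
    mul_le_mul_of_nonneg_right hp hNR.le
  nlinarith

/-- the exceptional numerators at the scale `N` -/
noncomputable def BdN (B N M : ℕ) (η x : ℝ) (y : ℕ → ℝ) (J : ℕ → ℤ) (q : ℕ) : Finset ℕ :=
  open Classical in (range M).filter fun m : ℕ => ¬ ∀ b : ℕ, 2 ≤ b → b ≤ B → ∀ n : ℕ, n ≤ N →
    Dev b n (η * N) (y q + (J q + m) * (x / q))

/-- **the exceptional set at one scale** -/
theorem scale (B : ℕ) (hB : 2 ≤ B) (η : ℝ) (hη : 0 < η) : ∃ (K R : ℕ) (C : ℝ), 1 ≤ K ∧ 0 ≤ C ∧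
    ∀ (N M H G : ℕ) (x κ L : ℝ) (y : ℕ → ℝ) (J : ℕ → ℤ), R ≤ N → 1 ≤ N → x ≠ 0 → 0 < κ →
      κ * H < |x| * 2 ^ G → |x| * (K * (B : ℝ) ^ N) + κ * H ≤ Real.exp L → 0 ≤ L →
      ∑ q ∈ PH H, Real.log q * ((BdN B N M η x y J q).card : ℝ) ≤
        C * (M * (th H * (1 / N + ((G : ℝ) / N) ^ 2) + (2 * (κ * H) + 1) * L) + th H * (2 / κ)) := by
  classical
  obtain ⟨K, R, τ, hK, hR, hτ, hp⟩ := params η hη
  refine ⟨K, R, B * (K * (R + 1)) / τ ^ 2, hK, by positivity, fun N M H G x κ L y J hRN hN hx hκ hG hL hL0 => ?_⟩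
  have hNR : (0 : ℝ) < N := by exact_mod_cast hN
  -- the exceptional sets for the single sums
  set S : ℕ → ℕ → ℕ → ℕ → ℕ → ℝ := fun b h l q m =>
    ‖∑ i ∈ Icc 1 (l * (N / R + 1)), e (h * (y q + (J q + m) * (x / q)) * (b : ℝ) ^ i)‖ with hS
  set W : ℕ → ℕ → ℕ → ℕ → Finset ℕ := fun b h l q => (range M).filter fun m => τ * N < S b h l q m with hW
  have hsub : ∀ q, BdN B N M η x y J q ⊆ (Icc 2 B).biUnion fun b => (Icc 1 K).biUnion fun h =>
      ((range (R + 1)).filter fun l => l * (N / R + 1) ≤ N).biUnion fun l => W b h l q := by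
    intro q m hm
    unfold BdN at hm
    rw [mem_filter] at hm
    obtain ⟨hm, hbad⟩ := hm
    by_contra hcon
    apply hbad
    intro b hb2 hbB
    refine Dev_of b N K R τ η _ hK hR hτ hRN hp ?_
    intro l hl h hh1 hhK hlN
    by_contra hc2
    push Not at hc2
    apply hcon
    rw [mem_biUnion]
    refine ⟨b, mem_Icc.2 ⟨hb2, hbB⟩, ?_⟩
    rw [mem_biUnion]
    refine ⟨h, mem_Icc.2 ⟨hh1, hhK⟩, ?_⟩
    rw [mem_biUnion]
    refine ⟨l, mem_filter.2 ⟨mem_range.2 (by omega), hlN⟩, ?_⟩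
    rw [hW, mem_filter]
    refine ⟨hm, ?_⟩
    rw [hS]
    simp only
    have : ∀ i : ℕ, (h : ℝ) * ((y q + (J q + m) * (x / q)) * (b : ℝ) ^ i) =
        h * (y q + (J q + m) * (x / q)) * (b : ℝ) ^ i := fun i => by ring
    simp_rw [this] at hc2
    exact hc2
  set V : ℝ := M * (th H * (1 / N + ((G : ℝ) / N) ^ 2) + (2 * (κ * H) + 1) * L) + th H * (2 / κ) with hV
  have hth := th_nonneg H
  have hone : ∀ b ∈ Icc 2 B, ∀ h ∈ Icc 1 K, ∀ l ∈ (range (R + 1)).filter fun l => l * (N / R + 1) ≤ N,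
      ∑ q ∈ PH H, Real.log q * ((W b h l q).card : ℝ) ≤ V / τ ^ 2 := by
    intro b hb h hh l hl
    rw [mem_Icc] at hb hh
    rw [mem_filter] at hl
    set n := l * (N / R + 1) with hn
    have hnN : (n : ℝ) ≤ N := Nat.cast_le.2 hl.2
    have hn0 : (0 : ℝ) ≤ n := Nat.cast_nonneg _
    have hL' : |x| * (h * (b : ℝ) ^ n) + κ * H ≤ Real.exp L := by
      refine le_trans ?_ hL
      have h1 : (h : ℝ) ≤ K := by exact_mod_cast hh.2
      have h2 : (b : ℝ) ^ n ≤ (B : ℝ) ^ N := by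
        calc (b : ℝ) ^ n ≤ (B : ℝ) ^ n := pow_le_pow_left₀ (Nat.cast_nonneg _) (by exact_mod_cast hb.2) _
          _ ≤ (B : ℝ) ^ N := pow_le_pow_right₀ (by exact_mod_cast (by omega : 1 ≤ B)) hl.2
      gcongr
    have h1 := mom_all b n h G H M x κ L hb.1 hh.1 hx hκ hG hL' hL0 y J
    have h2 : ∀ q ∈ PH H, Real.log q * ((W b h l q).card : ℝ) * (τ * N) ^ 2 ≤
        Real.log q * ∑ m ∈ range M,
          ‖∑ i ∈ Icc 1 n, e (h * (y q + (J q + m) * (x / q)) * (b : ℝ) ^ i)‖ ^ 2 := by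
      intro q hq
      rw [mul_assoc]
      apply mul_le_mul_of_nonneg_left _ (Real.log_natCast_nonneg q)
      calc ((W b h l q).card : ℝ) * (τ * N) ^ 2 = ∑ m ∈ W b h l q, (τ * N) ^ 2 := by
            rw [sum_const, nsmul_eq_mul]
        _ ≤ ∑ m ∈ W b h l q, S b h l q m ^ 2 := by
            refine sum_le_sum fun m hm => ?_
            exact pow_le_pow_left₀ (by positivity) (mem_filter.1 hm).2.le _
        _ ≤ ∑ m ∈ range M, S b h l q m ^ 2 :=
            sum_le_sum_of_subset_of_nonneg (filter_subset _ _) fun m _ _ => by positivity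
    have h3 : (∑ q ∈ PH H, Real.log q * ((W b h l q).card : ℝ)) * (τ * N) ^ 2 ≤ V * N ^ 2 := by
      rw [sum_mul]
      refine (sum_le_sum h2).trans (h1.trans ?_)
      have hκH : 0 ≤ κ * H := by positivity
      have e1 : V * (N : ℝ) ^ 2 = M * (th H * (N + (G : ℝ) ^ 2) + (N : ℝ) ^ 2 * ((2 * (κ * H) + 1) * L)) +
          th H * ((N : ℝ) ^ 2 * (2 / κ)) := by
        rw [hV]
        field_simp
      rw [e1]
      gcongr
    rw [le_div_iff₀ (by positivity)]
    rw [mul_pow, ← mul_assoc] at h3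
    exact le_of_mul_le_mul_right h3 (by positivity)
  have hV0 : 0 ≤ V / τ ^ 2 := by
    have hκH : 0 ≤ κ * H := by positivity
    positivity
  calc ∑ q ∈ PH H, Real.log q * ((BdN B N M η x y J q).card : ℝ)
      ≤ ∑ q ∈ PH H, Real.log q * ∑ b ∈ Icc 2 B, ∑ h ∈ Icc 1 K,
          ∑ l ∈ (range (R + 1)).filter (fun l => l * (N / R + 1) ≤ N), ((W b h l q).card : ℝ) := by
        refine sum_le_sum fun q hq => mul_le_mul_of_nonneg_left ?_ (Real.log_natCast_nonneg q)
        refine (Nat.cast_le.2 (card_le_card (hsub q))).trans ?_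
        refine (Nat.cast_le.2 card_biUnion_le).trans ?_
        push_cast
        refine sum_le_sum fun b _ => (Nat.cast_le.2 card_biUnion_le).trans ?_
        push_cast
        refine sum_le_sum fun h _ => (Nat.cast_le.2 card_biUnion_le).trans ?_
        push_cast
        exact le_rfl
    _ = ∑ b ∈ Icc 2 B, ∑ h ∈ Icc 1 K, ∑ l ∈ (range (R + 1)).filter (fun l => l * (N / R + 1) ≤ N),
          ∑ q ∈ PH H, Real.log q * ((W b h l q).card : ℝ) := by
        simp_rw [mul_sum]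
        rw [sum_comm]
        refine sum_congr rfl fun b _ => ?_
        rw [sum_comm]
        refine sum_congr rfl fun h _ => ?_
        rw [sum_comm]
    _ ≤ ∑ b ∈ Icc 2 B, ∑ h ∈ Icc 1 K, ∑ l ∈ (range (R + 1)).filter (fun l => l * (N / R + 1) ≤ N),
          V / τ ^ 2 :=
        sum_le_sum fun b hb => sum_le_sum fun h hh => sum_le_sum fun l hl => hone b hb h hh l hl
    _ ≤ ∑ b ∈ Icc 2 B, ∑ h ∈ Icc 1 K, (R + 1) * (V / τ ^ 2) := by
        refine sum_le_sum fun b _ => sum_le_sum fun h _ => ?_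
        rw [sum_const, nsmul_eq_mul]
        apply mul_le_mul_of_nonneg_right _ hV0
        have := card_filter_le (range (R + 1)) (fun l => l * (N / R + 1) ≤ N)
        rw [card_range] at this
        exact_mod_cast this
    _ ≤ B * (K * ((R + 1) * (V / τ ^ 2))) := by
        rw [sum_const, sum_const, nsmul_eq_mul, nsmul_eq_mul, Nat.card_Icc, Nat.card_Icc,
          Nat.add_sub_cancel]
        apply mul_le_mul_of_nonneg_right _ (by positivity)
        exact_mod_cast (by omega : B + 1 - 2 ≤ B)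
    _ = B * (K * (R + 1)) / τ ^ 2 * V := by ring

end Pool.Agent.K9h10.RP
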